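import Pool.Agent.helper20.HP.S0
import Pool.Agent.helper81.HP.B5

/-! # MP_5ae64c_pr, module B9: expectation estimates with prehistory -/

open scoped BigOperators Topology
open Filter MeasureTheory

namespace Pool.Agent.helper20.HP

variable {V : Type} [Fintype V] [DecidableEq V] {K : HW V} {θ : ℝ} {h : ℕ}

theorem B9_CZ_nonneg (θ : ℝ) : 0 ≤ CZ θ := by unfold CZ; positivity

omit [Fintype V] [DecidableEq V] in
theorem B9_rtake_sub (l : List V) (n : ℕ) {y : V} (hy : y ∈ l.rtake n) : y ∈ l := by
  unfold List.rtake at hy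
  exact List.mem_of_mem_drop hy

omit [Fintype V] [DecidableEq V] in
theorem B9_ind_mem_le (y : V) (A : List V) : ind (y ∈ A) ≤ (A.map (fun a => ind (y = a))).sum := by
  induction A with
  | nil => rw [ind_false (by simp)]; simp
  | cons a A ih =>
    rw [List.map_cons, List.sum_cons]
    refine le_trans ?_ (add_le_add le_rfl ih)
    rw [ind_congr (List.mem_cons (a := y) (b := a) (l := A))]
    exact ind_or_le _ _

omit [Fintype V] [DecidableEq V] in
theorem B9_ind_exists_le (P : ℕ → Prop) (n : ℕ) (h : ∃ a, a < n ∧ P a) :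
    (1 : ℝ) ≤ ∑ a ∈ Finset.range n, ind (P a) := by
  obtain ⟨a, ha, hPa⟩ := h
  have h1 : ind (P a) = 1 := ind_true hPa
  rw [← h1]
  exact Finset.single_le_sum (f := fun a => ind (P a)) (fun i _ => ind_nonneg _)
    (Finset.mem_range.mpr ha)

theorem X0 (hP : Par K θ h) (q T : ℕ) (hT : 4 * T ≤ Nat.sqrt (Fintype.card V)) (x : V) (l1 : List V) :
    ∑ v ∈ Finset.range (T + 1), W K v (lst x l1) (fun l2 => ind (lel x (l1 ++ l2) = q))
      ≤ CZ θ * ∑ a ∈ Finset.range (l1.length + 1), ∑ v ∈ Finset.range (T + 1),
          K.pt v (lst x l1) ((x :: l1).getD a x) := by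
  obtain ⟨τ, hτ⟩ := run_head x [] l1
  have hnd : (lst x l1 :: τ).Nodup := by
    rw [← hτ]
    exact run_nodup (List.nodup_singleton x) l1
  have e1 : ∀ l2 : List V, ind (lel x (l1 ++ l2) = q) = lev q (lst x l1) τ l2 := by
    intro l2
    unfold lev
    apply ind_congr
    have := run_single_length x (l1 ++ l2)
    rw [run_append, hτ] at this
    omega
  calc ∑ v ∈ Finset.range (T + 1), W K v (lst x l1) (fun l2 => ind (lel x (l1 ++ l2) = q))
      = ∑ v ∈ Finset.range (T + 1), W K v (lst x l1) (fun l2 => lev q (lst x l1) τ l2) := by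
        refine Finset.sum_congr rfl fun v _ => W_congr K v _ fun l _ => e1 l
    _ ≤ CZ θ * ∑ u ∈ Finset.range (T + 1), W K u (lst x l1) (fun l =>
          ind (lst (lst x l1) l ∈ (lst x l1 :: τ).rtake (q + 1))) := visits' hP _ _ hnd q T hT
    _ ≤ CZ θ * ∑ a ∈ Finset.range (l1.length + 1), ∑ v ∈ Finset.range (T + 1),
          K.pt v (lst x l1) ((x :: l1).getD a x) := by
        refine mul_le_mul_of_nonneg_left ?_ (B9_CZ_nonneg θ)
        rw [Finset.sum_comm]
        refine Finset.sum_le_sum fun v _ => ?_
        calc W K v (lst x l1) (fun l => ind (lst (lst x l1) l ∈ (lst x l1 :: τ).rtake (q + 1)))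
            ≤ W K v (lst x l1) (fun l => ∑ a ∈ Finset.range (l1.length + 1),
                ind (lst (lst x l1) l = (x :: l1).getD a x)) := by
              refine W_mono K v _ fun l _ => ?_
              by_cases hm : lst (lst x l1) l ∈ (lst x l1 :: τ).rtake (q + 1)
              · rw [ind_true hm]
                apply B9_ind_exists_le
                have h1 : lst (lst x l1) l ∈ run [x] l1 := by
                  rw [hτ]; exact B9_rtake_sub _ _ hm
                have h2 : lst (lst x l1) l ∈ x :: l1 := by
                  rcases mem_run h1 with h3 | h3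
                  · simp at h3; simp [h3]
                  · exact List.mem_cons_of_mem _ h3
                obtain ⟨a, ha, hae⟩ := List.getElem_of_mem h2
                refine ⟨a, by simpa using ha, ?_⟩
                rw [← hae]
                exact (List.getD_eq_getElem _ _ ha).symm
              · rw [ind_false hm]
                exact Finset.sum_nonneg fun _ _ => ind_nonneg _
          _ = ∑ a ∈ Finset.range (l1.length + 1), K.pt v (lst x l1) ((x :: l1).getD a x) := by
              rw [W_sum]
              exact Finset.sum_congr rfl fun a _ => W_ind_lst K v _ _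

omit [Fintype V] in
theorem B9_getD_lst (z : V) (l l' : List V) : (z :: (l ++ l')).getD l.length z = lst z l := by
  induction l generalizing z with
  | nil => simp [lst]
  | cons a l ih =>
    have h1 : (z :: (a :: l ++ l')).getD (a :: l).length z = (a :: (l ++ l')).getD l.length z := by
      simp
    rw [h1]
    have h2 : (a :: (l ++ l')).getD l.length z = (a :: (l ++ l')).getD l.length a := by
      have hlt : l.length < (a :: (l ++ l')).length := by
        rw [List.length_cons, List.length_append]; omega
      rw [List.getD_eq_getElem _ _ hlt, List.getD_eq_getElem _ _ hlt]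
    rw [h2, ih a]
    have h3 : lst z (a :: l) = lst (lst z [a]) l := by
      rw [← lst_append]; rfl
    rw [h3]
    rfl

omit [Fintype V] in
theorem B9_take_hit {z : V} {F A : List V} (h : ∃ y ∈ F, y ∈ A) :
    ∃ j, j < F.length ∧ lst z (F.take (j + 1)) ∈ A := by
  obtain ⟨y, hy, hyA⟩ := h
  obtain ⟨j, hj, hje⟩ := List.getElem_of_mem hy
  refine ⟨j, hj, ?_⟩
  rw [← List.take_append_getElem hj, hje, lst_concat]
  exact hyA

theorem B9_hit (hP : Par K θ h) (T : ℕ) (hT : 4 * T ≤ Nat.sqrt (Fintype.card V)) (z : V)
    (q : ℕ) (A : List V) :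
    ∑ m ∈ Finset.range (T + 1), W K m z (fun F => ind (lel z F = q) * ind (∃ y ∈ F, y ∈ A))
      ≤ CZ θ * ∑ j ∈ Finset.range T, ∑ a ∈ Finset.range (j + 2), ∑ v ∈ Finset.range (T + 1),
        W K (j + 1) z (fun F1 => ind (lst z F1 ∈ A) *
          K.pt v (lst z F1) ((z :: F1).getD a z)) := by
  have h1 : ∀ m ∈ Finset.range (T + 1),
      W K m z (fun F => ind (lel z F = q) * ind (∃ y ∈ F, y ∈ A))
        ≤ ∑ j ∈ Finset.range T, if j + 1 ≤ m then W K (j + 1) z (fun F1 => ind (lst z F1 ∈ A) *
            W K (m - (j + 1)) (lst z F1) (fun F2 => ind (lel z (F1 ++ F2) = q))) else 0 := by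
    intro m hm
    have hmT : m ≤ T := by simpa [Nat.lt_succ_iff] using hm
    calc W K m z (fun F => ind (lel z F = q) * ind (∃ y ∈ F, y ∈ A))
        ≤ W K m z (fun F => ∑ j ∈ Finset.range T, if j + 1 ≤ m then
            ind (lst z (F.take (j + 1)) ∈ A) * ind (lel z F = q) else 0) := by
          refine W_mono K m z fun F hF => ?_
          by_cases hh : ∃ y ∈ F, y ∈ A
          · rw [ind_true hh, mul_one]
            obtain ⟨j, hj, hjA⟩ := B9_take_hit (z := z) hh
            have hjm : j + 1 ≤ m := by omega
            have h2 : ind (lel z F = q) = (if j + 1 ≤ m then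
              ind (lst z (F.take (j + 1)) ∈ A) * ind (lel z F = q) else 0) := by
              rw [if_pos hjm, ind_true hjA, one_mul]
            refine le_trans (le_of_eq h2) ?_
            refine Finset.single_le_sum (f := fun j => if j + 1 ≤ m then
              ind (lst z (F.take (j + 1)) ∈ A) * ind (lel z F = q) else 0) (fun i _ => ?_)
              (Finset.mem_range.mpr (by omega))
            split_ifs
            · exact mul_nonneg (ind_nonneg _) (ind_nonneg _)
            · exact le_rfl
          · rw [ind_false hh, mul_zero]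
            refine Finset.sum_nonneg fun i _ => ?_
            split_ifs
            · exact mul_nonneg (ind_nonneg _) (ind_nonneg _)
            · exact le_rfl
      _ = ∑ j ∈ Finset.range T, if j + 1 ≤ m then W K (j + 1) z (fun F1 => ind (lst z F1 ∈ A) *
            W K (m - (j + 1)) (lst z F1) (fun F2 => ind (lel z (F1 ++ F2) = q))) else 0 := by
          rw [W_sum]
          refine Finset.sum_congr rfl fun j _ => ?_
          split_ifs with hjm
          · obtain ⟨v, rfl⟩ := Nat.exists_eq_add_of_le hjm
            rw [W_split, Nat.add_sub_cancel_left]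
            refine W_congr K _ _ fun F1 hF1 => ?_
            rw [← W_mul_left]
            refine W_congr K _ _ fun F2 _ => ?_
            have h3 : (F1 ++ F2).take (j + 1) = F1 := by
              rw [← hF1]; exact List.take_left
            rw [h3]
          · exact W_const K m z 0
  calc ∑ m ∈ Finset.range (T + 1), W K m z (fun F => ind (lel z F = q) * ind (∃ y ∈ F, y ∈ A))
      ≤ ∑ m ∈ Finset.range (T + 1), ∑ j ∈ Finset.range T, if j + 1 ≤ m then
          W K (j + 1) z (fun F1 => ind (lst z F1 ∈ A) *
            W K (m - (j + 1)) (lst z F1) (fun F2 => ind (lel z (F1 ++ F2) = q))) else 0 :=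
        Finset.sum_le_sum h1
    _ = ∑ j ∈ Finset.range T, ∑ m ∈ Finset.range (T + 1), if j + 1 ≤ m then
          W K (j + 1) z (fun F1 => ind (lst z F1 ∈ A) *
            W K (m - (j + 1)) (lst z F1) (fun F2 => ind (lel z (F1 ++ F2) = q))) else 0 :=
        Finset.sum_comm
    _ ≤ ∑ j ∈ Finset.range T, ∑ v ∈ Finset.range (T + 1),
          W K (j + 1) z (fun F1 => ind (lst z F1 ∈ A) *
            W K v (lst z F1) (fun F2 => ind (lel z (F1 ++ F2) = q))) := by
        refine Finset.sum_le_sum fun j _ => ?_
        rw [← Finset.sum_filter]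
        have h4 : ∑ m ∈ (Finset.range (T + 1)).filter (fun m => j + 1 ≤ m),
          W K (j + 1) z (fun F1 => ind (lst z F1 ∈ A) *
            W K (m - (j + 1)) (lst z F1) (fun F2 => ind (lel z (F1 ++ F2) = q)))
          = ∑ v ∈ ((Finset.range (T + 1)).filter (fun m => j + 1 ≤ m)).image (fun m => m - (j + 1)),
            W K (j + 1) z (fun F1 => ind (lst z F1 ∈ A) *
            W K v (lst z F1) (fun F2 => ind (lel z (F1 ++ F2) = q))) := by
          rw [Finset.sum_image]
          intro m hm m' hm' he
          rw [Finset.mem_coe, Finset.mem_filter] at hm hm'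
          have he' : m - (j + 1) = m' - (j + 1) := he
          omega
        rw [h4]
        refine Finset.sum_le_sum_of_subset_of_nonneg ?_ fun v _ _ => ?_
        · intro v hv
          simp only [Finset.mem_image, Finset.mem_filter, Finset.mem_range] at hv ⊢
          omega
        · exact W_nonneg K _ _ fun l _ => mul_nonneg (ind_nonneg _)
            (W_nonneg K _ _ fun l _ => ind_nonneg _)
    _ ≤ ∑ j ∈ Finset.range T, CZ θ * ∑ a ∈ Finset.range (j + 2), ∑ v ∈ Finset.range (T + 1),
        W K (j + 1) z (fun F1 => ind (lst z F1 ∈ A) *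
          K.pt v (lst z F1) ((z :: F1).getD a z)) := by
        refine Finset.sum_le_sum fun j _ => ?_
        calc ∑ v ∈ Finset.range (T + 1), W K (j + 1) z (fun F1 => ind (lst z F1 ∈ A) *
                W K v (lst z F1) (fun F2 => ind (lel z (F1 ++ F2) = q)))
            = W K (j + 1) z (fun F1 => ind (lst z F1 ∈ A) * ∑ v ∈ Finset.range (T + 1),
                W K v (lst z F1) (fun F2 => ind (lel z (F1 ++ F2) = q))) := by
              rw [← W_sum]
              exact W_congr K _ _ fun F1 _ => (Finset.mul_sum _ _ _).symm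
          _ ≤ W K (j + 1) z (fun F1 => ind (lst z F1 ∈ A) * (CZ θ *
                ∑ a ∈ Finset.range (j + 2), ∑ v ∈ Finset.range (T + 1),
                K.pt v (lst z F1) ((z :: F1).getD a z))) := by
              refine W_mono K _ _ fun F1 hF1 => mul_le_mul_of_nonneg_left ?_ (ind_nonneg _)
              have := X0 hP q T hT z F1
              rw [hF1] at this
              exact this
          _ = CZ θ * ∑ a ∈ Finset.range (j + 2), ∑ v ∈ Finset.range (T + 1),
                W K (j + 1) z (fun F1 => ind (lst z F1 ∈ A) *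
                  K.pt v (lst z F1) ((z :: F1).getD a z)) := by
              simp only [← W_sum]
              rw [← W_mul_left]
              refine W_congr K _ _ fun F1 _ => ?_
              simp only [Finset.mul_sum]
              refine Finset.sum_congr rfl fun a _ => Finset.sum_congr rfl fun v _ => ?_
              ring
    _ = CZ θ * ∑ j ∈ Finset.range T, ∑ a ∈ Finset.range (j + 2), ∑ v ∈ Finset.range (T + 1),
        W K (j + 1) z (fun F1 => ind (lst z F1 ∈ A) *
          K.pt v (lst z F1) ((z :: F1).getD a z)) := by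
        rw [Finset.mul_sum]

/-- fixing the position at time `a` -/
theorem B9_W_getD (A : List V) (v a c : ℕ) (z : V) :
    W K (a + c) z (fun F => ind (lst z F ∈ A) * K.pt v (lst z F) ((z :: F).getD a z))
      = ∑ y, K.pt a z y * ∑ w, K.pt c y w * (ind (w ∈ A) * K.pt v w y) := by
  rw [W_split]
  rw [← W_lst K a z (fun y => ∑ w, K.pt c y w * (ind (w ∈ A) * K.pt v w y))]
  refine W_congr K _ _ fun l hl => ?_
  rw [← W_lst K c (lst z l) (fun w => ind (w ∈ A) * K.pt v w (lst z l))]
  refine W_congr K _ _ fun l' _ => ?_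
  have h1 : (z :: (l ++ l')).getD a z = lst z l := by rw [← hl]; exact B9_getD_lst z l l'
  rw [h1, lst_append]

theorem B9_sum_mem_le (A : List V) : ∑ w : V, ind (w ∈ A) ≤ (A.length : ℝ) := by
  have h1 : ∑ w : V, ind (w ∈ A) = ((A.toFinset.card : ℕ) : ℝ) := by
    have : ∀ w : V, ind (w ∈ A) = if w ∈ A.toFinset then (1 : ℝ) else 0 := by
      intro w
      by_cases hw : w ∈ A
      · rw [ind_true hw, if_pos (by simpa using hw)]
      · rw [ind_false hw, if_neg (by simpa using hw)]
    rw [Finset.sum_congr rfl fun w _ => this w, Finset.sum_ite_mem, Finset.univ_inter,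
      Finset.sum_const, nsmul_eq_mul, mul_one]
  rw [h1]
  exact_mod_cast List.toFinset_card_le A

theorem B9_kernel (A : List V) (v c : ℕ) :
    ∑ y : V, ∑ w, K.pt c y w * (ind (w ∈ A) * K.pt v w y) ≤ (A.length : ℝ) * cc K (c + v) := by
  rw [Finset.sum_comm]
  calc ∑ w : V, ∑ y, K.pt c y w * (ind (w ∈ A) * K.pt v w y)
      = ∑ w : V, ind (w ∈ A) * cc K (c + v) := by
        refine Finset.sum_congr rfl fun w _ => ?_
        rw [← cc_eq K (c + v) w, pt_add, Finset.mul_sum]
        refine Finset.sum_congr rfl fun y _ => ?_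
        rw [pt_symm K c y w, pt_symm K v w y]
        ring
    _ = (∑ w : V, ind (w ∈ A)) * cc K (c + v) := by rw [Finset.sum_mul]
    _ ≤ (A.length : ℝ) * cc K (c + v) :=
        mul_le_mul_of_nonneg_right (B9_sum_mem_le A) (cc_nonneg K _)

theorem X1 (hP : Par K θ h) (T : ℕ) (hT : 4 * T ≤ Nat.sqrt (Fintype.card V)) (x0 : V)
    (q : List V → ℕ) (A : List V) :
    ∑ m ∈ Finset.range (T + 1), W K (2 * h) x0 (fun B => W K m (lst x0 B) (fun F =>
        ind (lel (lst x0 B) F = q B) * ind (∃ y ∈ F, y ∈ A)))
      ≤ CZ θ * θ * (T * A.length * (3 / (2 * (Fintype.card V : ℝ)))) := by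
  rw [← W_sum]
  calc W K (2 * h) x0 (fun B => ∑ m ∈ Finset.range (T + 1), W K m (lst x0 B) (fun F =>
        ind (lel (lst x0 B) F = q B) * ind (∃ y ∈ F, y ∈ A)))
      ≤ W K (2 * h) x0 (fun B => CZ θ * ∑ j ∈ Finset.range T, ∑ a ∈ Finset.range (j + 2),
          ∑ v ∈ Finset.range (T + 1), W K (j + 1) (lst x0 B) (fun F1 => ind (lst (lst x0 B) F1 ∈ A) *
          K.pt v (lst (lst x0 B) F1) ((lst x0 B :: F1).getD a (lst x0 B)))) :=
        W_mono K _ _ fun B _ => B9_hit hP T hT _ (q B) A
    _ = CZ θ * ∑ j ∈ Finset.range T, ∑ a ∈ Finset.range (j + 2),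
          ∑ v ∈ Finset.range (T + 1), W K (2 * h) x0 (fun B =>
            W K (j + 1) (lst x0 B) (fun F1 => ind (lst (lst x0 B) F1 ∈ A) *
          K.pt v (lst (lst x0 B) F1) ((lst x0 B :: F1).getD a (lst x0 B)))) := by
        rw [W_mul_left]
        simp only [← W_sum]
    _ ≤ CZ θ * ∑ j ∈ Finset.range T, ∑ a ∈ Finset.range (j + 2),
          ∑ v ∈ Finset.range (T + 1), 3 / (2 * (Fintype.card V : ℝ)) *
            ((A.length : ℝ) * cc K ((j + 1 - a) + v)) := by
        refine mul_le_mul_of_nonneg_left ?_ (B9_CZ_nonneg θ)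
        refine Finset.sum_le_sum fun j _ => Finset.sum_le_sum fun a ha => Finset.sum_le_sum
          fun v _ => ?_
        have haj : a ≤ j + 1 := by
          have := Finset.mem_range.mp ha
          omega
        obtain ⟨c, hc⟩ := Nat.exists_eq_add_of_le haj
        have hc' : j + 1 - a = c := by omega
        rw [hc', hc]
        calc W K (2 * h) x0 (fun B =>
            W K (a + c) (lst x0 B) (fun F1 => ind (lst (lst x0 B) F1 ∈ A) *
          K.pt v (lst (lst x0 B) F1) ((lst x0 B :: F1).getD a (lst x0 B))))
            = W K (2 * h) x0 (fun B => ∑ y, K.pt a (lst x0 B) y *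
                ∑ w, K.pt c y w * (ind (w ∈ A) * K.pt v w y)) :=
              W_congr K _ _ fun B _ => B9_W_getD A v a c (lst x0 B)
          _ = ∑ y, K.pt (2 * h + a) x0 y * ∑ w, K.pt c y w * (ind (w ∈ A) * K.pt v w y) := by
              rw [W_lst K (2 * h) x0 (fun z => ∑ y, K.pt a z y *
                ∑ w, K.pt c y w * (ind (w ∈ A) * K.pt v w y))]
              simp only [Finset.mul_sum, pt_add K (2 * h) a, Finset.sum_mul]
              rw [Finset.sum_comm]
              refine Finset.sum_congr rfl fun y _ => ?_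
              rw [Finset.sum_comm]
              refine Finset.sum_congr rfl fun w _ => Finset.sum_congr rfl fun z _ => ?_
              ring
          _ ≤ ∑ y, 3 / (2 * (Fintype.card V : ℝ)) *
                ∑ w, K.pt c y w * (ind (w ∈ A) * K.pt v w y) := by
              refine Finset.sum_le_sum fun y _ => mul_le_mul_of_nonneg_right
                (hP.mix _ (by omega) _ _) ?_
              exact Finset.sum_nonneg fun w _ => mul_nonneg (pt_nonneg K _ _ _)
                (mul_nonneg (ind_nonneg _) (pt_nonneg K _ _ _))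
          _ = 3 / (2 * (Fintype.card V : ℝ)) *
                ∑ y, ∑ w, K.pt c y w * (ind (w ∈ A) * K.pt v w y) := by rw [Finset.mul_sum]
          _ ≤ 3 / (2 * (Fintype.card V : ℝ)) * ((A.length : ℝ) * cc K (c + v)) :=
              mul_le_mul_of_nonneg_left (B9_kernel A v c) (by positivity)
    _ ≤ CZ θ * ∑ j ∈ Finset.range T, 3 / (2 * (Fintype.card V : ℝ)) * ((A.length : ℝ) * θ) := by
        refine mul_le_mul_of_nonneg_left ?_ (B9_CZ_nonneg θ)
        refine Finset.sum_le_sum fun j hj => ?_
        have hjT : j < T := Finset.mem_range.mp hj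
        have h1 : ∑ a ∈ Finset.range (j + 2), ∑ v ∈ Finset.range (T + 1), cc K ((j + 1 - a) + v)
            = ∑ a ∈ Finset.range (j + 2), ∑ v ∈ Finset.range (T + 1), cc K (a + v) := by
          rw [← Finset.sum_range_reflect (fun a => ∑ v ∈ Finset.range (T + 1), cc K (a + v)) (j + 2)]
          refine Finset.sum_congr rfl fun a ha => Finset.sum_congr rfl fun v _ => ?_
          congr 2
        have h2 : ∑ a ∈ Finset.range (j + 2), ∑ v ∈ Finset.range (T + 1), cc K (a + v) ≤ θ :=
          cc_double_le hP (by omega)
        calc ∑ a ∈ Finset.range (j + 2), ∑ v ∈ Finset.range (T + 1),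
            3 / (2 * (Fintype.card V : ℝ)) * ((A.length : ℝ) * cc K ((j + 1 - a) + v))
            = 3 / (2 * (Fintype.card V : ℝ)) * ((A.length : ℝ) *
              ∑ a ∈ Finset.range (j + 2), ∑ v ∈ Finset.range (T + 1), cc K ((j + 1 - a) + v)) := by
              simp only [Finset.mul_sum]
          _ ≤ 3 / (2 * (Fintype.card V : ℝ)) * ((A.length : ℝ) * θ) := by
              rw [h1]
              exact mul_le_mul_of_nonneg_left (mul_le_mul_of_nonneg_left h2 (by positivity))
                (by positivity)
    _ = CZ θ * θ * (T * A.length * (3 / (2 * (Fintype.card V : ℝ)))) := by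
        rw [Finset.sum_const, Finset.card_range, nsmul_eq_mul]
        ring

end Pool.Agent.helper20.HP
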