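import Pool.Agent.helper20.HP.S0
import Pool.Agent.helper65.HP.B4

/-! # MP_5ae64c_pr, module B7: mass of words with a long hit in the last steps, at a given level -/

open scoped BigOperators Topology
open Filter MeasureTheory

namespace Pool.Agent.helper20.HP

variable {V : Type} [Fintype V] [DecidableEq V] {K : HW V} {θ : ℝ} {h : ℕ}

theorem B7_CZ_nonneg (θ : ℝ) : 0 ≤ CZ θ := by unfold CZ; positivity

/-- predicate: the last `v + 1` steps are a long hit and a loop erased part of length `q` -/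
def B7_G (b r v q : ℕ) (x : V) (ρ l : List V) : Prop :=
  ∃ l1 y l2, l = l1 ++ y :: l2 ∧ l2.length = v ∧ LH b x ρ l1 y ∧
    (stp (run (x :: ρ) l1) y).length + q = r + 1 ∧ lel y l2 = q

omit [Fintype V] in
theorem B7_pointwise {b w r : ℕ} {x : V} {ρ l : List V} (hnd : (x :: ρ).Nodup) :
    ind (LHin b w x ρ l) * lev r x ρ l
      ≤ ∑ q ∈ Finset.range w, ∑ v ∈ Finset.range w, ind (B7_G b r v q x ρ l) := by
  have hnn : 0 ≤ ∑ q ∈ Finset.range w, ∑ v ∈ Finset.range w, ind (B7_G b r v q x ρ l) :=
    Finset.sum_nonneg fun _ _ => Finset.sum_nonneg fun _ _ => ind_nonneg _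
  unfold lev
  rw [← ind_and]
  by_cases hh : LHin b w x ρ l ∧ (run (x :: ρ) l).length = r + 1
  · rw [ind_true hh]
    obtain ⟨h1, h2⟩ := hh
    obtain ⟨l1, y, l2, hl, hl2, hLH, hNo⟩ := LHin_last b w x ρ l h1
    obtain ⟨σ, hs1, hs2, hs3⟩ := LH_last b x ρ l1 l2 y hnd hLH hNo
    have e1 : (stp (run (x :: ρ) l1) y) = y :: σ := by
      rw [← hs1, run_append, run_cons, run_nil]
    have e2 : lel y l2 + 1 + σ.length = r + 1 := by
      rw [← run_single_length, ← List.length_append, ← hs3, ← hl, h2]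
    have e3 : lel y l2 ≤ l2.length := lel_le y l2
    have hG : B7_G b r l2.length (lel y l2) x ρ l := by
      refine ⟨l1, y, l2, hl, rfl, hLH, ?_, rfl⟩
      rw [e1, List.length_cons]; omega
    have hG1 : ind (B7_G b r l2.length (lel y l2) x ρ l) = 1 := ind_true hG
    calc (1 : ℝ) = ind (B7_G b r l2.length (lel y l2) x ρ l) := hG1.symm
      _ ≤ ∑ v ∈ Finset.range w, ind (B7_G b r v (lel y l2) x ρ l) :=
          Finset.single_le_sum (f := fun v => ind (B7_G b r v (lel y l2) x ρ l))
            (fun i _ => ind_nonneg _) (Finset.mem_range.mpr hl2)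
      _ ≤ ∑ q ∈ Finset.range w, ∑ v ∈ Finset.range w, ind (B7_G b r v q x ρ l) :=
          Finset.single_le_sum (f := fun q => ∑ v ∈ Finset.range w, ind (B7_G b r v q x ρ l))
            (fun i _ => Finset.sum_nonneg fun _ _ => ind_nonneg _)
            (Finset.mem_range.mpr (lt_of_le_of_lt e3 hl2))
  · rw [ind_false hh]
    exact hnn

/-- the vertex of the state of level `r - q` -/
noncomputable def B7_z (r q : ℕ) (x : V) (ρ l : List V) : V :=
  ((run (x :: ρ) l).drop ((run (x :: ρ) l).length - (r + 1 - q))).headD x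

omit [Fintype V] in
theorem B7_head_eq (γ : List V) (y x : V) (hy : y ∈ γ) (m : ℕ)
    (hm : (γ.dropWhile (fun z => decide (z ≠ y))).length = m) :
    y = (γ.drop (γ.length - m)).headD x := by
  obtain ⟨α, hα⟩ := List.dropWhile_suffix (l := γ) (fun z => decide (z ≠ y))
  have h1 : γ.drop (γ.length - m) = γ.dropWhile (fun z => decide (z ≠ y)) := by
    have h2 : γ.length - m = α.length := by
      have := congrArg List.length hα
      rw [List.length_append] at this
      omega
    rw [h2]
    conv_lhs => rw [← hα]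
    exact List.drop_left
  rw [h1]
  have h3 : γ.dropWhile (fun z => decide (z ≠ y)) ≠ [] := by
    rw [Ne, List.dropWhile_eq_nil_iff]
    intro hall
    have := hall y hy
    simp at this
  obtain ⟨c, t, hct⟩ := List.exists_cons_of_ne_nil h3
  have h4 := List.head_dropWhile_not (fun z => decide (z ≠ y)) h3
  rw [hct]
  simp only [hct, List.head_cons] at h4
  simp only [List.headD_cons]
  have h5 : c = y := by simpa using h4
  exact h5.symm

omit [Fintype V] [DecidableEq V] in
theorem B7_rtake_append (x : V) (l l' : List V) : (x :: (l ++ l')).rtake l'.length = l' := by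
  have : x :: (l ++ l') = (x :: l) ++ l' := rfl
  rw [this, List.rtake]
  have h2 : ((x :: l) ++ l').length - l'.length = (x :: l).length := by
    rw [List.length_append]; omega
  rw [h2]
  exact List.drop_left

omit [Fintype V] in
/-- a long hit with given level, seen from `b` steps before -/
theorem B7_persist {b r q : ℕ} {x : V} {ρ l l' : List V} {y : V} (hnd : (x :: ρ).Nodup)
    (hb : l'.length = b) (hLH : LH b x ρ (l ++ l') y)
    (hlen : (stp (run (x :: ρ) (l ++ l')) y).length + q = r + 1) : y = B7_z r q x ρ l := by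
  obtain ⟨h1, h2⟩ := hLH
  have h3 : y ∉ l' := by
    rw [← hb, B7_rtake_append] at h2
    exact h2
  obtain ⟨h4, h5⟩ := persist (x :: ρ) l l' hnd y h1 h3
  unfold B7_z
  apply B7_head_eq _ _ _ h4
  rw [← h5]
  unfold stp at hlen
  rw [if_pos h1] at hlen
  omega

/-- probability of the next step being a long hit at level `r - q` -/
noncomputable def B7_M (Γ : List V) (K : HW V) (b r q : ℕ) (x : V) (ρ l : List V) : ℝ :=
  ∑ y, K.p (lst x l) y * ind (y ∉ Γ ∧ LH b x ρ l y ∧
    (stp (run (x :: ρ) l) y).length + q = r + 1)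

theorem B7_M_nonneg (Γ : List V) (K : HW V) (b r q : ℕ) (x : V) (ρ l : List V) :
    0 ≤ B7_M Γ K b r q x ρ l :=
  Finset.sum_nonneg fun _ _ => mul_nonneg (K.nonneg _ _) (ind_nonneg _)

omit [Fintype V] [DecidableEq V] in
theorem B7_drop_nodup {Γ : List V} (hΓ : Γ.Nodup) (i : Fin Γ.length) :
    (Γ.get i :: Γ.drop (i + 1)).Nodup := by
  have : Γ.get i :: Γ.drop (i + 1) = Γ.drop i := by
    rw [List.get_eq_getElem]
    exact List.getElem_cons_drop i.2
  rw [this]
  exact hΓ.sublist (List.drop_sublist _ _)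

theorem B7_M_short {Γ : List V} (b r q : ℕ) (i : Fin Γ.length) (l : List V)
    (hl : l.length < b) : B7_M Γ K b r q (Γ.get i) (Γ.drop (i + 1)) l = 0 := by
  unfold B7_M
  refine Finset.sum_eq_zero fun y _ => ?_
  rw [ind_false, mul_zero]
  rintro ⟨h1, ⟨h2, h3⟩, _⟩
  have h4 : (Γ.get i :: l).rtake b = Γ.get i :: l := by
    unfold List.rtake
    rw [List.length_cons, Nat.sub_eq_zero_of_le (by omega), List.drop_zero]
  rw [h4] at h3
  rcases mem_run h2 with h5 | h5
  · rcases List.mem_cons.mp h5 with h6 | h6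
    · exact h3 (by rw [h6]; exact List.mem_cons_self)
    · exact h1 (List.mem_of_mem_drop h6)
  · exact h3 (List.mem_cons_of_mem _ h5)

theorem B7_M_long (hP : Par K θ h) {Γ : List V} (hΓ : Γ.Nodup) (r q : ℕ) (i : Fin Γ.length)
    (l : List V) :
    W K (2 * h) (lst (Γ.get i) l) (fun l' => ind (∀ y ∈ l', y ∉ Γ) *
      B7_M Γ K (2 * h) r q (Γ.get i) (Γ.drop (i + 1)) (l ++ l'))
      ≤ 3 / (2 * (Fintype.card V : ℝ)) := by
  set x := Γ.get i with hx
  set ρ := Γ.drop (i + 1) with hρ
  set z := B7_z r q x ρ l with hz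
  have hnd : (x :: ρ).Nodup := B7_drop_nodup hΓ i
  calc W K (2 * h) (lst x l) (fun l' => ind (∀ y ∈ l', y ∉ Γ) *
      B7_M Γ K (2 * h) r q x ρ (l ++ l'))
      ≤ W K (2 * h) (lst x l) (fun l' => K.p (lst (lst x l) l') z) := by
        refine W_mono K _ _ fun l' hl' => ?_
        calc ind (∀ y ∈ l', y ∉ Γ) * B7_M Γ K (2 * h) r q x ρ (l ++ l')
            ≤ 1 * B7_M Γ K (2 * h) r q x ρ (l ++ l') :=
              mul_le_mul_of_nonneg_right (ind_le_one _) (B7_M_nonneg _ _ _ _ _ _ _ _)
          _ = B7_M Γ K (2 * h) r q x ρ (l ++ l') := one_mul _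
          _ ≤ ∑ y, K.p (lst (lst x l) l') y * ind (y = z) := by
              unfold B7_M
              refine Finset.sum_le_sum fun y _ => ?_
              rw [lst_append]
              refine mul_le_mul_of_nonneg_left (ind_mono ?_) (K.nonneg _ _)
              rintro ⟨_, h2, h3⟩
              exact B7_persist hnd hl' h2 h3
          _ = K.p (lst (lst x l) l') z := by
              rw [Finset.sum_eq_single z]
              · rw [ind_true rfl, mul_one]
              · intro y _ hy
                rw [ind_false hy, mul_zero]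
              · intro hz'
                exact absurd (Finset.mem_univ z) hz'
    _ = ∑ y, K.pt (2 * h) (lst x l) y * K.p y z := W_lst K (2 * h) (lst x l) (fun y => K.p y z)
    _ ≤ ∑ y, 3 / (2 * (Fintype.card V : ℝ)) * K.p y z := by
        refine Finset.sum_le_sum fun y _ => mul_le_mul_of_nonneg_right
          (hP.mix _ (by omega) _ _) (K.nonneg _ _)
    _ = 3 / (2 * (Fintype.card V : ℝ)) := by
        rw [← Finset.mul_sum]
        have : ∑ y, K.p y z = 1 := by
          rw [← K.sum_one z]
          exact Finset.sum_congr rfl fun y _ => K.symm y z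
        rw [this, mul_one]

theorem B7_M_mass (hP : Par K θ h) {Γ : List V} (hΓ : Γ.Nodup) (N r q : ℕ) :
    km K Γ N (B7_M Γ K (2 * h) r q) ≤ 3 / 2 := by
  have hn : 0 < (Fintype.card V : ℝ) := by exact_mod_cast hP.card_pos
  calc km K Γ N (B7_M Γ K (2 * h) r q)
      ≤ km K Γ (N + 2 * h) (B7_M Γ K (2 * h) r q) :=
        km_mono_N K Γ (Nat.le_add_right _ _) (fun x ρ l => B7_M_nonneg _ _ _ _ _ _ _ _)
    _ = km K Γ (2 * h) (B7_M Γ K (2 * h) r q) + km K Γ N (fun x ρ l =>
          W K (2 * h) (lst x l) (fun l' => ind (∀ y ∈ l', y ∉ Γ) *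
            B7_M Γ K (2 * h) r q x ρ (l ++ l'))) := km_split K Γ N (2 * h) _
    _ ≤ km K Γ (2 * h) (fun _ _ _ => 0) + km K Γ N (fun _ _ _ =>
          3 / (2 * (Fintype.card V : ℝ)) * 1) := by
        refine add_le_add ?_ ?_
        · refine km_mono K Γ _ fun i l hl _ => ?_
          exact le_of_eq (B7_M_short _ _ _ i l hl)
        · refine km_mono K Γ _ fun i l hl _ => ?_
          rw [mul_one]
          exact B7_M_long hP hΓ r q i l
    _ = 3 / (2 * (Fintype.card V : ℝ)) * km K Γ N (fun _ _ _ => 1) := by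
        have h0 : km K Γ (2 * h) (fun _ _ _ => (0 : ℝ)) = 0 := by
          have := km_mul_left K Γ (2 * h) 0 (fun _ _ _ => (0 : ℝ))
          simpa using this
        rw [h0, zero_add, km_mul_left]
    _ ≤ 3 / (2 * (Fintype.card V : ℝ)) * (Fintype.card V : ℝ) :=
        mul_le_mul_of_nonneg_left (kac K Γ hΓ N) (by positivity)
    _ = 3 / 2 := by field_simp

theorem B7_G_mass (Γ : List V) (N b r v q : ℕ) :
    km K Γ N (fun x ρ l => ind (B7_G b r v q x ρ l))
      ≤ km K Γ N (fun x ρ l => ∑ y, K.p (lst x l) y * (ind (y ∉ Γ ∧ LH b x ρ l y ∧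
        (stp (run (x :: ρ) l) y).length + q = r + 1) * W K v y (fun l2 => ind (lel y l2 = q)))) := by
  calc km K Γ N (fun x ρ l => ind (B7_G b r v q x ρ l))
      ≤ km K Γ (N + (v + 1)) (fun x ρ l => ind (B7_G b r v q x ρ l)) :=
        km_mono_N K Γ (Nat.le_add_right _ _) (fun x ρ l => ind_nonneg _)
    _ = km K Γ (v + 1) (fun x ρ l => ind (B7_G b r v q x ρ l)) + km K Γ N (fun x ρ l =>
          W K (v + 1) (lst x l) (fun l' => ind (∀ y ∈ l', y ∉ Γ) *
            ind (B7_G b r v q x ρ (l ++ l')))) := km_split K Γ N (v + 1) _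
    _ ≤ km K Γ (v + 1) (fun _ _ _ => 0) + km K Γ N (fun x ρ l => ∑ y, K.p (lst x l) y *
          (ind (y ∉ Γ ∧ LH b x ρ l y ∧ (stp (run (x :: ρ) l) y).length + q = r + 1) *
            W K v y (fun l2 => ind (lel y l2 = q)))) := by
        refine add_le_add ?_ ?_
        · refine km_mono K Γ _ fun i l hl _ => ?_
          refine le_of_eq (ind_false ?_)
          rintro ⟨l1, y, l2, he, hv, _⟩
          rw [he, List.length_append, List.length_cons] at hl
          omega
        · refine km_mono K Γ _ fun i l hl _ => ?_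
          rw [W_succ]
          refine Finset.sum_le_sum fun y _ => mul_le_mul_of_nonneg_left ?_ (K.nonneg _ _)
          rw [← W_mul_left]
          refine W_mono K _ _ fun l2 hl2 => ?_
          rw [← ind_and, ← ind_and]
          refine ind_mono ?_
          rintro ⟨ha, l1', y', l2', he, hv, hLH, hlen, hq⟩
          have h1 : l = l1' ∧ y :: l2 = y' :: l2' := by
            apply List.append_inj' he
            simp [hl2, hv]
          obtain ⟨rfl, h2⟩ := h1
          rw [List.cons.injEq] at h2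
          obtain ⟨rfl, rfl⟩ := h2
          exact ⟨⟨ha y List.mem_cons_self, hLH, hlen⟩, hq⟩
    _ = km K Γ N (fun x ρ l => ∑ y, K.p (lst x l) y *
          (ind (y ∉ Γ ∧ LH b x ρ l y ∧ (stp (run (x :: ρ) l) y).length + q = r + 1) *
            W K v y (fun l2 => ind (lel y l2 = q)))) := by
        have h0 : km K Γ (v + 1) (fun _ _ _ => (0 : ℝ)) = 0 := by
          have := km_mul_left K Γ (v + 1) 0 (fun _ _ _ => (0 : ℝ))
          simpa using this
        rw [h0, zero_add]

theorem LH_mass (hP : Par K θ h) (Γ : List V) (hΓ : Γ.Nodup) (N r w : ℕ)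
    (hw : 4 * w ≤ Nat.sqrt (Fintype.card V)) :
    km K Γ N (fun x ρ l => ind (LHin (2 * h) w x ρ l) * lev r x ρ l)
      ≤ 3 / 2 * CZ θ * ((w : ℝ) + 1) := by
  calc km K Γ N (fun x ρ l => ind (LHin (2 * h) w x ρ l) * lev r x ρ l)
      ≤ km K Γ N (fun x ρ l => ∑ q ∈ Finset.range w, ∑ v ∈ Finset.range w,
          ind (B7_G (2 * h) r v q x ρ l)) :=
        km_mono K Γ N fun i l _ _ => B7_pointwise (B7_drop_nodup hΓ i)
    _ = ∑ q ∈ Finset.range w, ∑ v ∈ Finset.range w,
          km K Γ N (fun x ρ l => ind (B7_G (2 * h) r v q x ρ l)) := by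
        rw [km_sum]
        exact Finset.sum_congr rfl fun q _ => km_sum K _ Γ N _
    _ ≤ ∑ q ∈ Finset.range w, ∑ v ∈ Finset.range w,
          km K Γ N (fun x ρ l => ∑ y, K.p (lst x l) y * (ind (y ∉ Γ ∧ LH (2 * h) x ρ l y ∧
            (stp (run (x :: ρ) l) y).length + q = r + 1) *
              W K v y (fun l2 => ind (lel y l2 = q)))) :=
        Finset.sum_le_sum fun q _ => Finset.sum_le_sum fun v _ => B7_G_mass Γ N (2 * h) r v q
    _ = ∑ q ∈ Finset.range w,
          km K Γ N (fun x ρ l => ∑ v ∈ Finset.range w, ∑ y, K.p (lst x l) y *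
            (ind (y ∉ Γ ∧ LH (2 * h) x ρ l y ∧
            (stp (run (x :: ρ) l) y).length + q = r + 1) *
              W K v y (fun l2 => ind (lel y l2 = q)))) :=
        Finset.sum_congr rfl fun q _ => (km_sum K _ Γ N _).symm
    _ ≤ ∑ q ∈ Finset.range w, km K Γ N (fun x ρ l => CZ θ * B7_M Γ K (2 * h) r q x ρ l) := by
        refine Finset.sum_le_sum fun q _ => km_mono K Γ N fun i l _ _ => ?_
        rw [Finset.sum_comm]
        unfold B7_M
        rw [Finset.mul_sum]
        refine Finset.sum_le_sum fun y _ => ?_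
        rw [← Finset.mul_sum, ← Finset.mul_sum]
        have h1 : ∑ v ∈ Finset.range w, W K v y (fun l2 => ind (lel y l2 = q)) ≤ CZ θ := by
          refine le_trans ?_ (Zq_le hP w q y (by omega))
          unfold Zq
          refine Finset.sum_le_sum_of_subset_of_nonneg ?_ fun v _ _ => ?_
          · intro v hv
            simp only [Finset.mem_range] at hv ⊢
            omega
          · exact W_nonneg K _ _ fun l _ => ind_nonneg _
        calc K.p (lst (Γ.get i) l) y * (ind (y ∉ Γ ∧ LH (2 * h) (Γ.get i) (Γ.drop (i + 1)) l y ∧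
              (stp (run (Γ.get i :: Γ.drop (i + 1)) l) y).length + q = r + 1) *
              ∑ v ∈ Finset.range w, W K v y (fun l2 => ind (lel y l2 = q)))
            ≤ K.p (lst (Γ.get i) l) y * (ind (y ∉ Γ ∧ LH (2 * h) (Γ.get i) (Γ.drop (i + 1)) l y ∧
              (stp (run (Γ.get i :: Γ.drop (i + 1)) l) y).length + q = r + 1) * CZ θ) :=
              mul_le_mul_of_nonneg_left (mul_le_mul_of_nonneg_left h1 (ind_nonneg _))
                (K.nonneg _ _)
          _ = CZ θ * (K.p (lst (Γ.get i) l) y * ind (y ∉ Γ ∧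
              LH (2 * h) (Γ.get i) (Γ.drop (i + 1)) l y ∧
              (stp (run (Γ.get i :: Γ.drop (i + 1)) l) y).length + q = r + 1)) := by ring
    _ = ∑ q ∈ Finset.range w, CZ θ * km K Γ N (B7_M Γ K (2 * h) r q) :=
        Finset.sum_congr rfl fun q _ => km_mul_left K Γ N _ _
    _ ≤ ∑ q ∈ Finset.range w, CZ θ * (3 / 2) :=
        Finset.sum_le_sum fun q _ => mul_le_mul_of_nonneg_left (B7_M_mass hP hΓ N r q)
          (B7_CZ_nonneg θ)
    _ = 3 / 2 * CZ θ * (w : ℝ) := by
        rw [Finset.sum_const, Finset.card_range, nsmul_eq_mul]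
        ring
    _ ≤ 3 / 2 * CZ θ * ((w : ℝ) + 1) := by
        have := B7_CZ_nonneg θ
        nlinarith

end Pool.Agent.helper20.HP
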